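import Pool.Agent.Q68.CH.Ab

/-!
# Project CH (helper200), job ABSS: points of large multiplicity on the line, independence
-/

set_option autoImplicit false

namespace Pool.Agent.Q68.CH

open Finset Polynomial Pool.Agent.H200C
open Pool.Agent.TH641.UM (ms)

section

variable {K : Type} [Field K] {ι : Type} [Fintype ι]

theorem coeff_mon' (a b : ℕ) (c : K) (k : ℕ) :
    (mon a b c).coeff k = if k = b then C c * X ^ a else 0 := by
  unfold mon
  rw [coeff_C_mul, coeff_X_pow, mul_ite, mul_one, mul_zero]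

theorem coeff_pol' (S : Finset (ℕ × ℕ)) (c : ℕ × ℕ → K) (k : ℕ) :
    (pol S c).coeff k = ∑ e ∈ S, if k = e.2 then C (c e) * X ^ e.1 else 0 := by
  unfold pol
  rw [finsetSum_coeff]
  exact Finset.sum_congr rfl fun e _ => coeff_mon' _ _ _ _

/-- the index set -/
abbrev JJ (T : Finset (ℕ × ℕ)) (H : ℕ) (D : ℕ → ℕ) := T ⊕ Σ k : Fin H, Fin (D k)

/-- the family -/
noncomputable def GG (T : Finset (ℕ × ℕ)) (H : ℕ) (a : ι → ℕ) (ξ : ι → K) :
    JJ T H (fun k => ∑ i, (a i - k)) → K[X][X]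
  | Sum.inl e => C (PP a ξ e.1.2 * X ^ e.1.1) * X ^ e.1.2
  | Sum.inr z => mon z.2 z.1 1

/-- the coefficients, as a function -/
noncomputable def cc {T : Finset (ℕ × ℕ)} {Z : Type} (c : T ⊕ Z → K) : ℕ × ℕ → K := by
  classical
  exact fun e => if h : e ∈ T then c (Sum.inl ⟨e, h⟩) else 0

theorem cc_apply {T : Finset (ℕ × ℕ)} {Z : Type} (c : T ⊕ Z → K) (e : T) :
    cc c e = c (Sum.inl e) := by
  unfold cc
  rw [dif_pos e.2]

/-- the rest in the row `k` -/
noncomputable def rr {T : Finset (ℕ × ℕ)} {H : ℕ} {D : ℕ → ℕ} (c : JJ T H D → K) (k : ℕ) : K[X] :=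
  ∑ z : (Σ k : Fin H, Fin (D k)), C (c (Sum.inr z)) * if k = z.1 then X ^ (z.2 : ℕ) else 0

theorem coeff_comb (T : Finset (ℕ × ℕ)) (H : ℕ) (a : ι → ℕ) (ξ : ι → K)
    (c : JJ T H (fun k => ∑ i, (a i - k)) → K) (k : ℕ) :
    (∑ j, C (C (c j)) * GG T H a ξ j).coeff k = PP a ξ k * (pol T (cc c)).coeff k + rr c k := by
  rw [finsetSum_coeff, Fintype.sum_sum_type]
  congr 1
  · rw [coeff_pol', Finset.mul_sum, ← Finset.sum_coe_sort T]
    refine Finset.sum_congr rfl fun e _ => ?_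
    show (C (C (c (Sum.inl e))) * (C (PP a ξ e.1.2 * X ^ e.1.1) * X ^ e.1.2)).coeff k =
      PP a ξ k * if k = e.1.2 then C (cc c e) * X ^ e.1.1 else 0
    rw [coeff_C_mul, coeff_C_mul, coeff_X_pow, cc_apply]
    by_cases hk : k = e.1.2
    · rw [if_pos hk, if_pos hk, hk]
      ring
    · rw [if_neg hk, if_neg hk]
      ring
  · refine Finset.sum_congr rfl fun z _ => ?_
    show (C (C (c (Sum.inr z))) * mon z.2 z.1 1).coeff k =
      C (c (Sum.inr z)) * if k = z.1 then X ^ (z.2 : ℕ) else 0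
    rw [coeff_C_mul, coeff_mon']
    congr 1
    split_ifs with hk
    · rw [C_1, one_mul]
    · rfl

theorem rr_degree {T : Finset (ℕ × ℕ)} {H : ℕ} {D : ℕ → ℕ} (c : JJ T H D → K) (k : ℕ) :
    rr c k ∈ degreeLT K (D k) := by
  unfold rr
  refine Submodule.sum_mem _ fun z _ => ?_
  split_ifs with hk
  · rw [mem_degreeLT]
    refine lt_of_le_of_lt (degree_C_mul_X_pow_le _ _) ?_
    have h1 : (z.2 : ℕ) < D k := by
      rw [hk]
      exact z.2.2
    exact_mod_cast h1
  · rw [mul_zero]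
    exact Submodule.zero_mem _

theorem rr_coeff {T : Finset (ℕ × ℕ)} {H : ℕ} {D : ℕ → ℕ} (c : JJ T H D → K)
    (z : Σ k : Fin H, Fin (D k)) : (rr c z.1).coeff z.2 = c (Sum.inr z) := by
  unfold rr
  rw [finsetSum_coeff, Finset.sum_eq_single z]
  · rw [if_pos rfl, coeff_C_mul, coeff_X_pow, if_pos rfl, mul_one]
  · intro w _ hw
    by_cases h1 : (z.1 : ℕ) = w.1
    · rw [if_pos h1, coeff_C_mul, coeff_X_pow, if_neg, mul_zero]
      intro h2
      apply hw
      obtain ⟨k, i⟩ := z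
      obtain ⟨k', i'⟩ := w
      have h3 : k = k' := Fin.ext h1
      subst h3
      have h4 : i = i' := Fin.ext h2
      rw [h4]
    · rw [if_neg h1, mul_zero, coeff_zero]
  · intro h
    exact absurd (Finset.mem_univ z) h

/-- the polynomials are in the strip -/
theorem GG_In {T : Finset (ℕ × ℕ)} {H : ℕ} {a : ι → ℕ} (ξ : ι → K) (ha : ∀ i, H ≤ a i)
    {b σ : ℤ} (hT : (↑T : Set (ℕ × ℕ)) ⊆ St (b - ((∑ i, a i : ℕ) : ℤ)) (σ - (Fintype.card ι : ℤ)) H)
    (hD : ∀ k < H, ((∑ i, (a i - k) : ℕ) : ℤ) ≤ b - σ * k + 1)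
    (j : JJ T H (fun k => ∑ i, (a i - k))) : In (St b σ H) (GG T H a ξ j) := by
  have hsum : ∀ k ≤ H, ((∑ i, (a i - k) : ℕ) : ℤ) =
      ((∑ i, a i : ℕ) : ℤ) - (Fintype.card ι : ℤ) * k := by
    intro k hk
    push_cast
    have h1 : ∀ i, ((a i - k : ℕ) : ℤ) = (a i : ℤ) - k := by
      intro i
      rw [Nat.cast_sub (hk.trans (ha i))]
    rw [Finset.sum_congr rfl fun i _ => h1 i, Finset.sum_sub_distrib, Finset.sum_const,
      Finset.card_univ, nsmul_eq_mul]
  rcases j with e | z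
  · intro x y hxy
    have hxy' : ((C (PP a ξ e.1.2 * X ^ e.1.1) * X ^ e.1.2 : K[X][X]).coeff y).coeff x ≠ 0 := hxy
    rw [coeff_C_mul, coeff_X_pow] at hxy'
    have hy : y = e.1.2 := by
      by_contra hne
      rw [if_neg hne, mul_zero, coeff_zero] at hxy'
      exact hxy' rfl
    rw [if_pos hy, mul_one] at hxy'
    have hx : x ≤ ∑ i, (a i - e.1.2) + e.1.1 := by
      have h1 := le_natDegree_of_ne_zero hxy'
      refine h1.trans (natDegree_mul_le.trans ?_)
      rw [natDegree_PP, natDegree_X_pow]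
    have h2 := hT e.2
    have h3 : e.1.2 < H := h2.1
    have h4 : ((e.1.1 : ℕ) : ℤ) + (σ - (Fintype.card ι : ℤ)) * (e.1.2 : ℕ) ≤
      b - ((∑ i, a i : ℕ) : ℤ) := h2.2
    refine ⟨by rw [hy]; exact h3, ?_⟩
    show (x : ℤ) + σ * (y : ℕ) ≤ b
    rw [hy]
    have h5 : (x : ℤ) ≤ ((∑ i, (a i - e.1.2) : ℕ) : ℤ) + (e.1.1 : ℤ) := by exact_mod_cast hx
    rw [hsum _ h3.le] at h5
    have h6 : (σ - (Fintype.card ι : ℤ)) * ((e.1.2 : ℕ) : ℤ) =
      σ * ((e.1.2 : ℕ) : ℤ) - (Fintype.card ι : ℤ) * ((e.1.2 : ℕ) : ℤ) := by ring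
    linarith
  · intro x y hxy
    have hxy' : ((mon z.2 z.1 (1 : K)).coeff y).coeff x ≠ 0 := hxy
    rw [coeff_mon] at hxy'
    have h1 : (x, y) = ((z.2 : ℕ), (z.1 : ℕ)) := by
      by_contra hne
      exact hxy' (if_neg hne)
    rw [h1]
    refine ⟨z.1.2, ?_⟩
    show ((z.2 : ℕ) : ℤ) + σ * ((z.1 : ℕ) : ℤ) ≤ b
    have h2 := hD z.1 z.1.2
    have h3 : ((z.2 : ℕ) : ℤ) < ((∑ i, (a i - z.1) : ℕ) : ℤ) := by exact_mod_cast z.2.2
    linarith

end

theorem absS : S_AbsS := by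
  intro hV hG hE hX hMs A V M b σ H hA hVH hn hS
  obtain ⟨T, hT, hTc, hTE⟩ := hS
  have haA : ∀ i, H ≤ fam A i := fun i => hA _ (fam_mem A i)
  obtain ⟨K, _, _, s, hs⟩ := hE ((Fin A.toList.length ⊕ Fin V.toList.length) ⊕
    Fin M.toList.length × Fin 2)
  have hsi := hs.injective
  -- the positions
  obtain ⟨ξ, hξ⟩ : ∃ z : Fin A.toList.length → K, z = fun i => s (Sum.inl (Sum.inl i)) := ⟨_, rfl⟩
  obtain ⟨η, hη⟩ : ∃ z : Fin V.toList.length → K, z = fun i => s (Sum.inl (Sum.inr i)) := ⟨_, rfl⟩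
  obtain ⟨x, hx⟩ : ∃ z : Fin M.toList.length → K, z = fun i => s (Sum.inr (i, 0)) := ⟨_, rfl⟩
  obtain ⟨u, hu⟩ : ∃ z : Fin M.toList.length → K, z = fun i => s (Sum.inr (i, 1)) := ⟨_, rfl⟩
  have hξi : Function.Injective ξ := by
    intro i j hij
    rw [hξ] at hij
    exact Sum.inl_injective (Sum.inl_injective (hsi hij))
  have hηξ : ∀ j i, η j ≠ ξ i := by
    intro j i hij
    rw [hη, hξ] at hij
    exact Sum.inr_ne_inl (Sum.inl_injective (hsi hij))
  have hxξ : ∀ j i, x j ≠ ξ i := by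
    intro j i hij
    rw [hx, hξ] at hij
    exact Sum.inr_ne_inl (hsi hij)
  -- the generic statement for `T`
  have hgen : Inj K (Sum.elim (fam V) (fam M)) (Sum.elim η x) (Sum.elim (fun _ => 0) u)
      (↑T : Set (ℕ × ℕ)) := by
    have h1 := hG T.finite_toSet hTE
      (fun z : Fin V.toList.length ⊕ Fin M.toList.length × Fin 2 => s (Sum.map Sum.inr id z))
      (hs.comp _ (Function.Injective.sumMap Sum.inr_injective Function.injective_id))
    rw [hη, hx, hu]
    exact h1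
  have hcount : Fintype.card (Fin A.toList.length) = A.card := (card_fam A).symm
  have hT' : (↑T : Set (ℕ × ℕ)) ⊆ St (b - ((∑ i, fam A i : ℕ) : ℤ))
      (σ - (Fintype.card (Fin A.toList.length) : ℤ)) H := by
    rw [← sum_id, hcount]
    exact hT
  have hD : ∀ k < H, ((∑ i, (fam A i - k) : ℕ) : ℤ) ≤ b - σ * k + 1 := by
    intro k hk
    have h1 := hn k hk
    rw [sum_fam] at h1
    push_cast
    refine le_trans (le_of_eq (Finset.sum_congr rfl fun i _ => ?_)) h1
    exact Nat.cast_sub (hk.le.trans (haA i))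
  obtain ⟨T1, hT1, hT1c, hT1i⟩ := xchJ hX
    (Sum.elim (Sum.elim (fam A) (fam V)) (fam M)) (Sum.elim (Sum.elim ξ η) x)
    (Sum.elim (fun _ => 0) fun j => u j * (QQ ξ).eval (x j)) (St b σ H) (GG T H (fam A) ξ)
    (GG_In ξ haA hT' hD) (by
      intro c hc
      obtain ⟨f, hf⟩ : ∃ f, f = ∑ j, C (C (c j)) * GG T H (fam A) ξ j := ⟨_, rfl⟩
      rw [← hf] at hc
      have hfc : ∀ k, f.coeff k = PP (fam A) ξ k * (pol T (cc c)).coeff k + rr c k := by
        intro k
        rw [hf]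
        exact coeff_comb T H (fam A) ξ c k
      -- the rests vanish
      have hr : ∀ k < H, rr c k = 0 := by
        intro k hk
        have h1 : PP (fam A) ξ k ∣ f.coeff k := by
          refine PP_dvd hξi fun i => ?_
          exact ((hV.rows0 _ _ _).mp (hc (Sum.inl (Sum.inl i)))) k (lt_of_lt_of_le hk (haA i))
        rw [hfc k] at h1
        have h2 : PP (fam A) ξ k ∣ rr c k := (dvd_add_right (dvd_mul_right _ _)).mp h1
        refine eq_zero_of_dvd_of_degree_lt h2 ?_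
        rw [degree_eq_natDegree (PP_ne _ _ _), natDegree_PP]
        exact mem_degreeLT.mp (rr_degree c k)
      have hpol0 : ∀ k, H ≤ k → (pol T (cc c)).coeff k = 0 := by
        intro k hk
        refine Polynomial.ext fun n => ?_
        rw [coeff_pol, if_neg, coeff_zero]
        intro h1
        exact absurd (hT h1).1 (not_lt.mpr hk)
      have hrr0 : ∀ k, H ≤ k → rr c k = 0 := by
        intro k hk
        unfold rr
        refine Finset.sum_eq_zero fun z _ => ?_
        rw [if_neg, mul_zero]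
        have := z.1.2
        omega
      have hcore := core hV (v := fam V) (m := fam M) (H := H) hηξ hxξ haA (f := f)
        (g := pol T (cc c)) (u := u)
        (fun k hk => by rw [hfc k, hr k hk, add_zero])
        (fun k hk => by rw [hfc k, hpol0 k hk, hrr0 k hk, mul_zero, add_zero])
        hpol0 (fun j => hc (Sum.inl (Sum.inr j))) (fun j => hc (Sum.inr j))
      have hg0 : pol T (cc c) = 0 := by
        refine hgen _ (In_pol T _) ?_
        rintro (j | j)
        · exact hcore.1 j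
        · exact hcore.2 j
      funext j
      rcases j with e | z
      · have h1 := coeff_pol T (cc c) e.1.1 e.1.2
        rw [hg0, coeff_zero, coeff_zero, if_pos e.2] at h1
        rw [← cc_apply c e]
        exact h1.symm
      · rw [← rr_coeff c z, hr z.1 z.1.2, coeff_zero]
        rfl)
  refine ⟨T1, hT1, ?_, ?_⟩
  · rw [hT1c, Fintype.card_sum, Fintype.card_sigma, Fintype.card_coe, hTc,
      Pool.Agent.TH2.NU.condM_add, Multiset.map_add, Pool.Agent.TH2.NU.condM_add,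
      condM_small hVH, ← condM_large hA]
    have h1 : ∑ k : Fin H, Fintype.card (Fin (∑ i, (fam A i - (k : ℕ)))) =
        ∑ k ∈ range H, ∑ i, (fam A i - k) := by
      rw [Finset.sum_range]
      exact Finset.sum_congr rfl fun k _ => Fintype.card_fin _
    rw [h1]
    ring
  · refine (hMs (w := Sum.elim (fam A) (fam V)) (v := fam M) ?_ rfl).1 ?_
    · rw [Pool.Agent.TH641.UM.ms_sum, ms_fam, ms_fam, ms_fam]
    · exact ⟨K, inferInstance, inferInstance, Sum.elim ξ η, x, _, hT1i⟩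

end Pool.Agent.Q68.CH
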