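import Pool.Agent.Q68.CH.T

/-!
# Project CH (helper200), job GEN: from one configuration to generic ones
-/

set_option autoImplicit false

namespace Pool.Agent.Q68.CH

open Finset Polynomial Pool.Agent.H200C

theorem gen : S_Gen := by
  intro hV σ ι _ _ m px py S hS hK L _ _ s hs
  classical
  obtain ⟨K, _, _, s0, hs0⟩ := hK
  obtain ⟨T, rfl⟩ : ∃ T : Finset (ℕ × ℕ), (↑T : Set (ℕ × ℕ)) = S := ⟨hS.toFinset, hS.coe_toFinset⟩
  rw [inj_iff hV] at hs0 ⊢
  -- the matrix of polynomials
  let P : Rw m → T → MvPolynomial σ ℚ := fun r e => ent px py r e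
  have hP : ∀ {F : Type} [Field F] [CharZero F] (t : σ → F) (r : Rw m) (e : T),
      MvPolynomial.aeval t (P r e) =
        ent (fun i => MvPolynomial.aeval t (px i)) (fun i => MvPolynomial.aeval t (py i)) r e := by
    intro F _ _ t r e
    simp only [P, ent, map_mul, map_pow, map_natCast]
  obtain ⟨a, ha⟩ := Pool.Agent.TH15.Nag.exists_rows (fun (r : Rw m) (e : T) =>
    ent (fun i => MvPolynomial.aeval s0 (px i)) (fun i => MvPolynomial.aeval s0 (py i)) r e) hs0
  let D : MvPolynomial σ ℚ := (Matrix.of fun j e => P (a j) e).det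
  have hD : ∀ {F : Type} [Field F] [CharZero F] (t : σ → F), MvPolynomial.aeval t D =
      (Matrix.of fun (j : T) (e : T) => ent (fun i => MvPolynomial.aeval t (px i))
        (fun i => MvPolynomial.aeval t (py i)) (a j) e).det := by
    intro F _ _ t
    rw [AlgHom.map_det]
    congr 1
    ext j e
    exact hP t (a j) e
  have hDne : D ≠ 0 := by
    intro h0
    apply ha
    rw [← hD s0, h0, map_zero]
  have hDL : MvPolynomial.aeval s D ≠ 0 := by
    intro h0
    exact hDne ((algebraicIndependent_iff.mp hs) D h0)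
  rw [hD s] at hDL
  intro c hc
  apply Matrix.eq_zero_of_mulVec_eq_zero hDL
  funext j
  exact hc (a j)

end Pool.Agent.Q68.CH
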