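import Pool.Agent.H200C.Stm

/-!
# Project CH (helper200), job GENB: generic points
-/

set_option autoImplicit false

namespace Pool.Agent.Q68.CH

open Finset Polynomial Pool.Agent.H200C

theorem exi : Exi := by
  intro σ _
  refine ⟨FractionRing (MvPolynomial σ ℚ), inferInstance, inferInstance,
    fun i => algebraMap (MvPolynomial σ ℚ) (FractionRing (MvPolynomial σ ℚ)) (MvPolynomial.X i), ?_⟩
  have h1 := (MvPolynomial.algebraicIndependent_X σ ℚ).map'
    (f := (algebraMap (MvPolynomial σ ℚ) (FractionRing (MvPolynomial σ ℚ))).toRatAlgHom)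
    (IsFractionRing.injective _ _)
  exact h1

theorem cv_coeff {R : Type} [CommRing R] (e : ℕ) (p : R[X]) (hp : p.natDegree ≤ e) :
    cv e (fun t => p.coeff t) = p := by
  unfold cv
  rw [Fin.sum_univ_eq_sum_range (fun t => C (p.coeff t) * X ^ t) (e + 1)]
  exact (p.as_sum_range_C_mul_X_pow' (Nat.lt_succ_of_le hp)).symm

theorem cv_eval {R : Type} [CommRing R] (e : ℕ) (α : Fin (e + 1) → R) (x : R) :
    (cv e α).eval x = ∑ t : Fin (e + 1), α t * x ^ (t : ℕ) := by
  unfold cv
  rw [eval_finsetSum]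
  refine Finset.sum_congr rfl fun t _ => ?_
  rw [eval_mul, eval_C, eval_pow, eval_X]

theorem genB : S_GenB := by
  intro hG
  refine ⟨?_, ?_, exi⟩
  · intro ι κ _ _ w v S hS hE L _ _ s hs
    obtain ⟨K, _, _, ξ, x, y, h⟩ := hE
    let px : ι ⊕ κ → MvPolynomial (ι ⊕ κ × Fin 2) ℚ :=
      Sum.elim (fun i => MvPolynomial.X (Sum.inl i)) fun j => MvPolynomial.X (Sum.inr (j, 0))
    let py : ι ⊕ κ → MvPolynomial (ι ⊕ κ × Fin 2) ℚ :=
      Sum.elim (fun _ => 0) fun j => MvPolynomial.X (Sum.inr (j, 1))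
    have hx : ∀ {F : Type} [Field F] [CharZero F] (t : ι ⊕ κ × Fin 2 → F),
        (fun i => MvPolynomial.aeval t (px i)) =
          Sum.elim (fun i => t (Sum.inl i)) fun j => t (Sum.inr (j, 0)) := by
      intro F _ _ t
      funext i
      rcases i with i | j
      · exact MvPolynomial.aeval_X t _
      · exact MvPolynomial.aeval_X t _
    have hy : ∀ {F : Type} [Field F] [CharZero F] (t : ι ⊕ κ × Fin 2 → F),
        (fun i => MvPolynomial.aeval t (py i)) =
          Sum.elim (fun _ => 0) fun j => t (Sum.inr (j, 1)) := by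
      intro F _ _ t
      funext i
      rcases i with i | j
      · exact map_zero _
      · exact MvPolynomial.aeval_X t _
    have h1 := hG (Sum.elim w v) px py S hS
      ⟨K, inferInstance, inferInstance, Sum.elim ξ (fun q => ![x q.1, y q.1] q.2), by
        rw [hx, hy]
        exact h⟩ s hs
    rw [hx, hy] at h1
    exact h1
  · intro e ι κ _ _ w v S hS hE L _ _ s hs
    obtain ⟨K, _, _, p, ξ, x, y, hp, h⟩ := hE
    let px : ι ⊕ κ → MvPolynomial (Fin (e + 1) ⊕ ι ⊕ κ × Fin 2) ℚ :=
      Sum.elim (fun i => MvPolynomial.X (Sum.inr (Sum.inl i)))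
        fun j => MvPolynomial.X (Sum.inr (Sum.inr (j, 0)))
    let py : ι ⊕ κ → MvPolynomial (Fin (e + 1) ⊕ ι ⊕ κ × Fin 2) ℚ :=
      Sum.elim (fun i => ∑ t : Fin (e + 1), MvPolynomial.X (Sum.inl t) *
        MvPolynomial.X (Sum.inr (Sum.inl i)) ^ (t : ℕ))
        fun j => MvPolynomial.X (Sum.inr (Sum.inr (j, 1)))
    have hx : ∀ {F : Type} [Field F] [CharZero F] (t : Fin (e + 1) ⊕ ι ⊕ κ × Fin 2 → F),
        (fun i => MvPolynomial.aeval t (px i)) =
          Sum.elim (fun i => t (Sum.inr (Sum.inl i))) fun j => t (Sum.inr (Sum.inr (j, 0))) := by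
      intro F _ _ t
      funext i
      rcases i with i | j
      · exact MvPolynomial.aeval_X t _
      · exact MvPolynomial.aeval_X t _
    have hy : ∀ {F : Type} [Field F] [CharZero F] (t : Fin (e + 1) ⊕ ι ⊕ κ × Fin 2 → F),
        (fun i => MvPolynomial.aeval t (py i)) =
          Sum.elim (fun i => (cv e fun u => t (Sum.inl u)).eval (t (Sum.inr (Sum.inl i))))
            fun j => t (Sum.inr (Sum.inr (j, 1))) := by
      intro F _ _ t
      funext i
      rcases i with i | j
      · show MvPolynomial.aeval t (∑ u : Fin (e + 1), MvPolynomial.X (Sum.inl u) *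
          MvPolynomial.X (Sum.inr (Sum.inl i)) ^ (u : ℕ)) =
          (cv e fun u => t (Sum.inl u)).eval (t (Sum.inr (Sum.inl i)))
        rw [cv_eval, map_sum]
        refine Finset.sum_congr rfl fun u _ => ?_
        rw [map_mul, map_pow, MvPolynomial.aeval_X, MvPolynomial.aeval_X]
      · exact MvPolynomial.aeval_X t _
    have h1 := hG (Sum.elim w v) px py S hS
      ⟨K, inferInstance, inferInstance,
        Sum.elim (fun t => p.coeff t) (Sum.elim ξ (fun q => ![x q.1, y q.1] q.2)), by
        rw [hx, hy]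
        have h2 : (cv e fun u => (Sum.elim (fun t : Fin (e + 1) => p.coeff t)
            (Sum.elim ξ (fun q : κ × Fin 2 => ![x q.1, y q.1] q.2)) (Sum.inl u) : K)) = p :=
          cv_coeff e p hp
        rw [h2]
        exact h⟩ s hs
    rw [hx, hy] at h1
    exact h1

end Pool.Agent.Q68.CH
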