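import Pool.Agent.H200C.Stm

/-!
# Project CH (helper200), job MS: the families may be replaced
-/

set_option autoImplicit false

namespace Pool.Agent.Q68.CH

open Finset Polynomial Pool.Agent.H200C
open Pool.Agent.TH641.UM (ms count_ms)

theorem match_pos {ι ι' : Type} [Fintype ι] [Fintype ι'] {w : ι → ℕ} {w' : ι' → ℕ}
    (h : (ms w).filter (fun a => 0 < a) = (ms w').filter (fun a => 0 < a)) :
    ∃ g : {i // 0 < w i} → ι', Function.Injective g ∧ ∀ i, w' (g i) = w i.1 := by
  classical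
  have h1 : ∀ a : ℕ, 0 < a → Nonempty ({i // w i = a} ↪ {j // w' j = a}) := by
    intro a ha
    apply Function.Embedding.nonempty_of_card_le
    rw [← count_ms, ← count_ms]
    have h2 := congrArg (Multiset.count a) h
    rw [Multiset.count_filter_of_pos ha, Multiset.count_filter_of_pos ha] at h2
    exact h2.le
  let e := fun (a : ℕ) (ha : 0 < a) => (h1 a ha).some
  refine ⟨fun i => (e (w i.1) i.2 ⟨i.1, rfl⟩).1, ?_, fun i => (e (w i.1) i.2 ⟨i.1, rfl⟩).2⟩
  intro i i' hii
  have hv : ∀ i : {i // 0 < w i}, w' ((e (w i.1) i.2 ⟨i.1, rfl⟩).1) = w i.1 :=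
    fun i => (e (w i.1) i.2 ⟨i.1, rfl⟩).2
  have h2 : w i.1 = w i'.1 := by
    rw [← hv i, ← hv i']
    exact congrArg w' hii
  have key : ∀ a (ha : 0 < a) (ha' : 0 < a) (hi : w i.1 = a) (hi' : w i'.1 = a),
      (e a ha ⟨i.1, hi⟩).1 = (e a ha' ⟨i'.1, hi'⟩).1 → i.1 = i'.1 := by
    intro a ha ha' hi hi' hh
    have := (e a ha).injective (Subtype.ext hh)
    exact congrArg (fun z : {i // w i = a} => z.1) this
  have h3 : ∀ a (ha : 0 < a) (hi' : w i'.1 = a),
      (e (w i'.1) i'.2 ⟨i'.1, rfl⟩).1 = (e a ha ⟨i'.1, hi'⟩).1 := by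
    intro a ha hi'
    subst hi'
    rfl
  apply Subtype.ext
  refine key (w i.1) i.2 i.2 rfl h2.symm ?_
  rw [← h3 (w i.1) i.2 h2.symm]
  exact hii

theorem VO_zero {R : Type} [CommRing R] (x y : R) (f : R[X][X]) : VO 0 x y f :=
  fun _ _ h => absurd h (Nat.not_lt_zero _)

theorem msP : S_Ms := by
  intro ι κ ι' κ' _ _ _ _ w v w' v' S hw hv
  obtain ⟨g1, i1, e1⟩ := match_pos hw
  obtain ⟨g2, i2, e2⟩ := match_pos hv
  constructor
  · rintro ⟨K, _, _, ξ, x, y, h⟩
    refine ⟨K, inferInstance, inferInstance, Function.extend g1 (fun i => ξ i.1) 0,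
      Function.extend g2 (fun i => x i.1) 0, Function.extend g2 (fun i => y i.1) 0,
      fun f hf hm => h f hf ?_⟩
    rintro (i | j)
    · rcases Nat.eq_zero_or_pos (w i) with h0 | h0
      · show VO (w i) (ξ i) 0 f
        rw [h0]
        exact VO_zero _ _ _
      · have h3 := hm (Sum.inl (g1 ⟨i, h0⟩))
        simp only [Sum.elim_inl] at h3 ⊢
        rw [e1, i1.extend_apply] at h3
        exact h3
    · rcases Nat.eq_zero_or_pos (v j) with h0 | h0
      · show VO (v j) (x j) (y j) f
        rw [h0]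
        exact VO_zero _ _ _
      · have h3 := hm (Sum.inr (g2 ⟨j, h0⟩))
        simp only [Sum.elim_inr] at h3 ⊢
        rw [e2, i2.extend_apply, i2.extend_apply] at h3
        exact h3
  · rintro e ⟨K, _, _, p, ξ, x, y, hp, h⟩
    refine ⟨K, inferInstance, inferInstance, p, Function.extend g1 (fun i => ξ i.1) 0,
      Function.extend g2 (fun i => x i.1) 0, Function.extend g2 (fun i => y i.1) 0, hp,
      fun f hf hm => h f hf ?_⟩
    rintro (i | j)
    · rcases Nat.eq_zero_or_pos (w i) with h0 | h0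
      · show VO (w i) (ξ i) (p.eval (ξ i)) f
        rw [h0]
        exact VO_zero _ _ _
      · have h3 := hm (Sum.inl (g1 ⟨i, h0⟩))
        simp only [Sum.elim_inl] at h3 ⊢
        rw [e1, i1.extend_apply] at h3
        exact h3
    · rcases Nat.eq_zero_or_pos (v j) with h0 | h0
      · show VO (v j) (x j) (y j) f
        rw [h0]
        exact VO_zero _ _ _
      · have h3 := hm (Sum.inr (g2 ⟨j, h0⟩))
        simp only [Sum.elim_inr] at h3 ⊢
        rw [e2, i2.extend_apply, i2.extend_apply] at h3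
        exact h3

end Pool.Agent.Q68.CH
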