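import Pool.Agent.H200C.Stm

/-!
# Project CH (helper200), job RULE: the step of the induction
-/

set_option autoImplicit false

namespace Pool.Agent.Q68.CH

open Finset Polynomial Pool.Agent.H200C
open Pool.Agent.TH641.UM (ms exists_fam)

theorem ms_fam (W : Multiset ℕ) : ms (fam W) = W := exists_fam W

theorem filter_pos_map (W : Multiset ℕ) (H : ℕ) :
    (W.map fun w => w - H).filter (fun a => 0 < a) = (up W H).filter (fun a => 0 < a) := by
  have h1 : (up W H).filter (fun a => 0 < a) = up W H := by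
    apply Multiset.filter_eq_self.mpr
    intro a ha
    unfold up at ha
    obtain ⟨w, hw, rfl⟩ := Multiset.mem_map.mp ha
    exact Nat.sub_pos_of_lt (Multiset.mem_filter.mp hw).2
  rw [h1, Multiset.filter_map]
  unfold up
  congr 1
  apply Multiset.filter_congr
  intro w _
  show 0 < w - H ↔ H < w
  omega

theorem condM_filter_pos (W : Multiset ℕ) : Pool.Agent.TH2.NU.condM (W.filter fun a => 0 < a) = Pool.Agent.TH2.NU.condM W := by
  induction W using Multiset.induction_on with
  | empty => rfl
  | cons a W ih =>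
    unfold Pool.Agent.TH2.NU.condM at ih ⊢
    rcases Nat.eq_zero_or_pos a with h0 | h0
    · rw [Multiset.filter_cons_of_neg _ (by rw [h0]; exact lt_irrefl 0), ih, Multiset.map_cons,
        Multiset.sum_cons, h0]
      simp
    · rw [Multiset.filter_cons_of_pos (p := fun a => 0 < a) W (show 0 < a from h0),
        Multiset.map_cons, Multiset.sum_cons, ih,
        Multiset.map_cons, Multiset.sum_cons]

theorem condM_up (W : Multiset ℕ) (H : ℕ) :
    Pool.Agent.TH2.NU.condM (up W H) = Pool.Agent.TH2.NU.condM (W.map fun w => w - H) := by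
  rw [← condM_filter_pos (up W H), ← filter_pos_map, condM_filter_pos]

theorem hi_add_lo (W : Multiset ℕ) (H : ℕ) : hi W H + lo W H = W := by
  unfold hi lo
  have h1 : (W.filter fun w => w < H) = W.filter fun w => ¬ H ≤ w := by
    apply Multiset.filter_congr
    intro w _
    exact Nat.not_le.symm
  rw [h1]
  exact Multiset.filter_add_not _ W

theorem EC_up (hMs : Ms) {e : ℕ} {W M : Multiset ℕ} {H : ℕ} {S : Set (ℕ × ℕ)}
    (h : EC e (up W H) M S) : EC e (W.map fun w => w - H) M S := by
  refine (hMs ?_ ?_).2 e h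
  · rw [ms_fam, ms_fam, filter_pos_map]
  · rfl

theorem rule : S_Rule := by
  intro hAE hAS hCE hCS hMs
  refine ⟨?_, ?_, ?_⟩
  · intro e d H W M1 M2 he hH h1 h2
    refine hCE e d H W M1 M2 he hH ?_ (EC_up hMs h2)
    have h3 := hAE (hi W H) (lo W H) M1 _ _ H (fun a ha => (Multiset.mem_filter.mp ha).2) h1
    rw [hi_add_lo] at h3
    exact h3
  · intro e d H W M1 M2 he hH hn h1 h2
    refine hCS e d H W M1 M2 he hH ?_ ?_
    · have h3 := hAS (hi W H) (lo W H) M1 _ _ H (fun a ha => (Multiset.mem_filter.mp ha).2)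
        (fun a ha => (Multiset.mem_filter.mp ha).2.le) hn h1
      rw [hi_add_lo] at h3
      exact h3
    · obtain ⟨T, hT, hc, hE⟩ := h2
      refine ⟨T, hT, ?_, EC_up hMs hE⟩
      rw [hc, condM_up]
  · intro e e' W M S hee
    have key : ∀ S' : Set (ℕ × ℕ), EC e' W M S' → EC e W M S' := by
      rintro S' ⟨K, i1, i2, p, ξ, x, y, hp, h⟩
      exact ⟨K, i1, i2, p, ξ, x, y, hp.trans hee, h⟩
    refine ⟨key S, ?_⟩
    rintro ⟨T, hT, hc, hE⟩
    exact ⟨T, hT, hc, key _ hE⟩

end Pool.Agent.Q68.CH
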