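import Pool.Agent.Q68.CH.T
import Pool.Agent.Q68.CH.GenB
import Pool.Agent.Q68.CH.Rule

/-!
# Project CH (helper200), job TOR: the relation with Laurent polynomials
-/

set_option autoImplicit false

namespace Pool.Agent.Q68.CH

open Finset Polynomial Pool.Agent.H200C
open Pool.Agent.TH176.Nag (PF LM pr prL PF_le_of_desc PF_desc2 Emp)

section

variable {K : Type} [Field K]

/-- a submodule which contains all the products of falling factorials contains `PF K w` -/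
theorem PF_le_of_desc2 {w : ℕ} {V : Submodule K (K × K → K)}
    (hV : ∀ a b : ℕ, a + b < w → (fun u : K × K =>
      (∏ t ∈ range a, (u.1 - (t : K))) * ∏ t ∈ range b, (u.2 - (t : K))) ∈ V) : PF K w ≤ V := by
  have key : ∀ c a b : ℕ, a + b + c < w → (fun u : K × K =>
      u.1 ^ c * ((∏ t ∈ range a, (u.1 - (t : K))) * ∏ t ∈ range b, (u.2 - (t : K)))) ∈ V := by
    intro c
    induction c with
    | zero => intro a b h; simpa using hV a b (by omega)
    | succ c ih =>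
      intro a b h
      have h1 := ih (a + 1) b (by omega)
      have h2 := V.smul_mem (a : K) (ih a b (by omega))
      convert V.add_mem h1 h2 using 2
      simp only [Pi.smul_apply, smul_eq_mul, Pi.add_apply]
      rw [prod_range_succ]; ring
  apply PF_le_of_desc
  intro a b hab
  have h := key a 0 b (by omega)
  simpa using h

/-- the Laurent polynomial with given coefficients -/
noncomputable def lau (S : Finset (ℕ × ℕ)) (c : ℕ × ℕ → K) : (ℤ × ℤ) →₀ K :=
  ∑ e ∈ S, Finsupp.single ((e.1 : ℤ), (e.2 : ℤ)) (c e)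

theorem pr_lau (S : Finset (ℕ × ℕ)) (c : ℕ × ℕ → K) (x y : K) (P : K × K → K) :
    pr (lau S c) x y P = ∑ e ∈ S, c e * P ((e.1 : K), (e.2 : K)) * (x ^ e.1 * y ^ e.2) := by
  unfold pr lau
  rw [← Finsupp.sum_finsetSum_index]
  · refine Finset.sum_congr rfl fun e _ => ?_
    rw [Finsupp.sum_single_index (by ring)]
    simp only [Int.cast_natCast, zpow_natCast]
  · intro a
    ring
  · intro a b b'
    ring

theorem cast_inj2 {e e' : ℕ × ℕ} (h : ((e.1 : ℤ), (e.2 : ℤ)) = ((e'.1 : ℤ), (e'.2 : ℤ))) :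
    e = e' := by
  have h1 := congrArg Prod.fst h
  have h2 := congrArg Prod.snd h
  exact Prod.ext (Int.ofNat_inj.mp h1) (Int.ofNat_inj.mp h2)

theorem lau_apply (S : Finset (ℕ × ℕ)) (c : ℕ × ℕ → K) (e : ℕ × ℕ) (he : e ∈ S) :
    lau S c ((e.1 : ℤ), (e.2 : ℤ)) = c e := by
  unfold lau
  rw [Finsupp.finsetSum_apply, Finset.sum_eq_single e]
  · rw [Finsupp.single_eq_same]
  · intro e' _ hne
    rw [Finsupp.single_apply, if_neg]
    intro h
    exact hne (cast_inj2 h)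
  · intro h
    exact absurd he h

theorem lau_supp (S : Finset (ℕ × ℕ)) (c : ℕ × ℕ → K) (m : ℤ × ℤ) (hm : lau S c m ≠ 0) :
    ∃ e ∈ S, ((e.1 : ℤ), (e.2 : ℤ)) = m := by
  by_contra hn
  push Not at hn
  apply hm
  unfold lau
  rw [Finsupp.finsetSum_apply]
  refine Finset.sum_eq_zero fun e he => ?_
  rw [Finsupp.single_apply, if_neg (hn e he)]

theorem desc_choose [CharZero K] (n k : ℕ) :
    ((n.choose k : ℕ) : K) * ((k.factorial : ℕ) : K) = ∏ t ∈ range k, ((n : K) - (t : K)) := by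
  rw [← descPochhammer_eval_eq_prod_range, descPochhammer_eval_eq_descFactorial,
    Nat.descFactorial_eq_factorial_mul_choose]
  push_cast
  ring

theorem choose_pow (x : K) (n i : ℕ) :
    ((n.choose i : ℕ) : K) * x ^ (n - i) * x ^ i = ((n.choose i : ℕ) : K) * x ^ n := by
  rcases le_or_gt i n with h | h
  · rw [mul_assoc, ← pow_add, Nat.sub_add_cancel h]
  · rw [Nat.choose_eq_zero_of_lt h]
    push_cast
    ring

theorem tc_lau [CharZero K] (hV : VOF) (S : Finset (ℕ × ℕ)) (c : ℕ × ℕ → K) {x y : K}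
    (hx : x ≠ 0) (hy : y ≠ 0) (i k : ℕ) :
    tc (pol S c) x y i k * (x ^ i * y ^ k * ((i.factorial : ℕ) : K) * ((k.factorial : ℕ) : K)) =
      pr (lau S c) x y (fun u : K × K =>
        (∏ t ∈ range i, (u.1 - (t : K))) * ∏ t ∈ range k, (u.2 - (t : K))) := by
  rw [tc_pol hV, pr_lau, Finset.sum_mul]
  refine Finset.sum_congr rfl fun e _ => ?_
  show _ = c e * ((∏ t ∈ range i, ((e.1 : K) - (t : K))) *
    ∏ t ∈ range k, ((e.2 : K) - (t : K))) * (x ^ e.1 * y ^ e.2)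
  rw [← desc_choose, ← desc_choose]
  have h1 := choose_pow x e.1 i
  have h2 := choose_pow y e.2 k
  calc _ = c e * (((e.1.choose i : ℕ) : K) * x ^ (e.1 - i) * x ^ i) *
        (((e.2.choose k : ℕ) : K) * y ^ (e.2 - k) * y ^ k) * ((i.factorial : ℕ) : K) *
          ((k.factorial : ℕ) : K) := by ring
    _ = _ := by rw [h1, h2]; ring

theorem VO_iff_LM [CharZero K] (hV : VOF) (S : Finset (ℕ × ℕ)) (c : ℕ × ℕ → K) {x y : K}
    (hx : x ≠ 0) (hy : y ≠ 0) (m : ℕ) : VO m x y (pol S c) ↔ LM (lau S c) x y m := by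
  have hf : ∀ i k : ℕ, (x ^ i * y ^ k * ((i.factorial : ℕ) : K) * ((k.factorial : ℕ) : K)) ≠ 0 := by
    intro i k
    refine mul_ne_zero (mul_ne_zero (mul_ne_zero (pow_ne_zero _ hx) (pow_ne_zero _ hy)) ?_) ?_
    · exact_mod_cast i.factorial_ne_zero
    · exact_mod_cast k.factorial_ne_zero
  constructor
  · intro h P hP
    have h1 : PF K m ≤ LinearMap.ker (prL (lau S c) x y) := by
      apply PF_le_of_desc2
      intro a b hab
      have h2 := tc_lau hV S c hx hy a b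
      rw [h a b hab, zero_mul] at h2
      exact h2.symm
    exact h1 hP
  · intro h i k hik
    have h1 := tc_lau hV S c hx hy i k
    rw [h _ (PF_desc2 hik)] at h1
    exact (mul_eq_zero.mp h1).resolve_right (hf i k)

theorem exists_supp (f : K[X][X]) {S : Set (ℕ × ℕ)} (h : In S f) :
    ∃ T : Finset (ℕ × ℕ), (↑T : Set (ℕ × ℕ)) ⊆ S ∧ In (↑T : Set (ℕ × ℕ)) f := by
  classical
  refine ⟨f.support.biUnion fun b => (f.coeff b).support.image fun a => (a, b), ?_, ?_⟩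
  · intro p hp
    rw [Finset.mem_coe, Finset.mem_biUnion] at hp
    obtain ⟨b, _, h2⟩ := hp
    obtain ⟨a, h3, rfl⟩ := Finset.mem_image.mp h2
    exact h a b (mem_support_iff.mp h3)
  · intro a b hab
    rw [Finset.mem_coe, Finset.mem_biUnion]
    refine ⟨b, mem_support_iff.mpr ?_, Finset.mem_image.mpr ⟨a, mem_support_iff.mpr hab, rfl⟩⟩
    intro h0
    rw [h0, coeff_zero] at hab
    exact hab rfl

theorem pol_zero_of {S : Finset (ℕ × ℕ)} {c : ℕ × ℕ → K} (h : ∀ e ∈ S, c e = 0) :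
    pol S c = 0 := by
  unfold pol
  refine Finset.sum_eq_zero fun e he => ?_
  rw [h e he]
  unfold mon
  rw [C_0, zero_mul, C_0, zero_mul]

/-- from Laurent polynomials to polynomials -/
theorem inj_of_lau [CharZero K] (hV : VOF) {ι : Type} {m : ι → ℕ} {x y : ι → K}
    (hx : ∀ i, x i ≠ 0) (hy : ∀ i, y i ≠ 0) {S : Set (ℤ × ℤ)}
    (h : ∀ f : (ℤ × ℤ) →₀ K, (↑f.support : Set (ℤ × ℤ)) ⊆ S →
      (∀ i, LM f (x i) (y i) (m i)) → f = 0) : Inj K m x y (qd S) := by
  intro f hf hm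
  obtain ⟨T, hT, hTf⟩ := exists_supp f hf
  rw [eq_pol hTf] at hm ⊢
  have h1 : lau T (fun e => (f.coeff e.2).coeff e.1) = 0 := by
    apply h
    · intro p hp
      obtain ⟨e, he, rfl⟩ := lau_supp _ _ p (Finsupp.mem_support_iff.mp hp)
      exact hT he
    · intro i
      exact (VO_iff_LM hV _ _ (hx i) (hy i) _).mp (hm i)
  apply pol_zero_of
  intro e he
  rw [← lau_apply T (fun e => (f.coeff e.2).coeff e.1) e he, h1]
  rfl

/-- from polynomials to Laurent polynomials -/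
theorem lau_of_inj [CharZero K] (hV : VOF) {ι : Type} {m : ι → ℕ} {x y : ι → K}
    (hx : ∀ i, x i ≠ 0) (hy : ∀ i, y i ≠ 0) {S : Set (ℤ × ℤ)} (hS : ∀ p ∈ S, 0 ≤ p.1 ∧ 0 ≤ p.2)
    (h : Inj K m x y (qd S)) (f : (ℤ × ℤ) →₀ K) (hf : (↑f.support : Set (ℤ × ℤ)) ⊆ S)
    (hm : ∀ i, LM f (x i) (y i) (m i)) : f = 0 := by
  classical
  obtain ⟨T, hT⟩ : ∃ T : Finset (ℕ × ℕ), T = f.support.image fun p => (p.1.toNat, p.2.toNat) :=
    ⟨_, rfl⟩
  have hTm : ∀ e ∈ T, ((e.1 : ℤ), (e.2 : ℤ)) ∈ f.support := by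
    intro e he
    rw [hT, Finset.mem_image] at he
    obtain ⟨p, hp, rfl⟩ := he
    have h1 := hS p (hf hp)
    have h2 : (((p.1.toNat : ℕ) : ℤ), ((p.2.toNat : ℕ) : ℤ)) = p :=
      Prod.ext (Int.toNat_of_nonneg h1.1) (Int.toNat_of_nonneg h1.2)
    show (((p.1.toNat : ℕ) : ℤ), ((p.2.toNat : ℕ) : ℤ)) ∈ f.support
    rw [h2]
    exact hp
  have hfl : f = lau T fun e => f ((e.1 : ℤ), (e.2 : ℤ)) := by
    refine Finsupp.ext fun p => ?_
    by_cases hp : p ∈ f.support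
    · have h1 := hS p (hf hp)
      have h2 : (((p.1.toNat : ℕ) : ℤ), ((p.2.toNat : ℕ) : ℤ)) = p :=
        Prod.ext (Int.toNat_of_nonneg h1.1) (Int.toNat_of_nonneg h1.2)
      have h3 : (p.1.toNat, p.2.toNat) ∈ T := by
        rw [hT]
        exact Finset.mem_image.mpr ⟨p, hp, rfl⟩
      have h4 := lau_apply T (fun e => f ((e.1 : ℤ), (e.2 : ℤ))) _ h3
      simp only [h2] at h4
      exact h4.symm
    · rw [Finsupp.notMem_support_iff.mp hp]
      by_contra hne
      obtain ⟨e, he, rfl⟩ := lau_supp T _ p (Ne.symm hne)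
      exact hp (hTm e he)
  have h1 : pol T (fun e => f ((e.1 : ℤ), (e.2 : ℤ))) = 0 := by
    apply h
    · intro a b hab
      have h2 := In_pol T (fun e => f ((e.1 : ℤ), (e.2 : ℤ))) a b hab
      exact hf (hTm _ h2)
    · intro i
      rw [VO_iff_LM hV _ _ (hx i) (hy i), ← hfl]
      exact hm i
  rw [hfl]
  unfold lau
  refine Finset.sum_eq_zero fun e he => ?_
  have h2 := coeff_pol T (fun e => f ((e.1 : ℤ), (e.2 : ℤ))) e.1 e.2
  rw [h1, coeff_zero, coeff_zero, if_pos he] at h2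
  show Finsupp.single ((e.1 : ℤ), (e.2 : ℤ)) (f ((e.1 : ℤ), (e.2 : ℤ))) = 0
  have h3 : f ((e.1 : ℤ), (e.2 : ℤ)) = 0 := h2.symm
  rw [h3, Finsupp.single_zero]

end

theorem part1 (hV : VOF) (M : Multiset ℕ) (S : Set (ℤ × ℤ))
    (h : Pool.Agent.TH641.UM.EmpM M S) : EB 0 M (qd S) ∧ ∀ e, EC e 0 M (qd S) := by
  obtain ⟨K, _, _, x, y, hx, hy, hf⟩ := h
  have h1 := inj_of_lau hV hx hy hf
  refine ⟨⟨K, inferInstance, inferInstance, 0, x, y, fun f hf hm => h1 f hf fun i => ?_⟩,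
    fun e => ⟨K, inferInstance, inferInstance, 0, 0, x, y, Nat.zero_le _,
      fun f hf hm => h1 f hf fun i => ?_⟩⟩
  · exact hm (Sum.inr i)
  · exact hm (Sum.inr i)

theorem cond_fam (M : Multiset ℕ) :
    Pool.Agent.TH603.Sur.cond (fun i : Fin M.toList.length => M.toList.get i) =
      Pool.Agent.TH2.NU.condM M := by
  rw [Pool.Agent.TH2.NU.cond_condM]
  exact congrArg _ (ms_fam M)

theorem toNat_image {T : Finset (ℤ × ℤ)} (hT : ∀ p ∈ T, 0 ≤ p.1 ∧ 0 ≤ p.2) :
    ∃ T' : Finset (ℕ × ℕ), (↑T' : Set (ℕ × ℕ)) = qd (↑T : Set (ℤ × ℤ)) ∧ T'.card = T.card := by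
  classical
  refine ⟨T.image fun p => (p.1.toNat, p.2.toNat), ?_, ?_⟩
  · ext e
    rw [Finset.mem_coe, Finset.mem_image]
    constructor
    · rintro ⟨p, hp, rfl⟩
      have h1 := hT p hp
      show (((p.1.toNat : ℕ) : ℤ), ((p.2.toNat : ℕ) : ℤ)) ∈ (↑T : Set (ℤ × ℤ))
      rw [Int.toNat_of_nonneg h1.1, Int.toNat_of_nonneg h1.2]
      exact hp
    · intro he
      exact ⟨_, he, Prod.ext (Int.toNat_natCast _) (Int.toNat_natCast _)⟩
  · apply Finset.card_image_of_injOn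
    intro p hp q hq hpq
    have h1 := hT p hp
    have h2 := hT q hq
    have h3 := congrArg Prod.fst hpq
    have h4 := congrArg Prod.snd hpq
    simp only at h3 h4
    exact Prod.ext (by omega) (by omega)

theorem cast_image (T : Finset (ℕ × ℕ)) :
    ∃ T' : Finset (ℤ × ℤ), qd (↑T' : Set (ℤ × ℤ)) = (↑T : Set (ℕ × ℕ)) ∧ T'.card = T.card ∧
      (∀ p ∈ T', 0 ≤ p.1 ∧ 0 ≤ p.2) ∧ ∀ p ∈ T', ∃ e ∈ T, ((e.1 : ℤ), (e.2 : ℤ)) = p := by
  classical
  refine ⟨T.image fun e => ((e.1 : ℤ), (e.2 : ℤ)), ?_, ?_, ?_, ?_⟩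
  · ext e
    constructor
    · intro he
      obtain ⟨e', he', h1⟩ := Finset.mem_image.mp he
      rw [Finset.mem_coe, ← cast_inj2 h1]
      exact he'
    · intro he
      exact Finset.mem_image.mpr ⟨e, he, rfl⟩
  · exact Finset.card_image_of_injective _ fun e e' h => cast_inj2 h
  · intro p hp
    obtain ⟨e, _, rfl⟩ := Finset.mem_image.mp hp
    exact ⟨Int.natCast_nonneg _, Int.natCast_nonneg _⟩
  · intro p hp
    obtain ⟨e, he, h⟩ := Finset.mem_image.mp hp
    exact ⟨e, he, h⟩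

theorem ne_zero_of_algInd {σ L : Type} [Field L] [CharZero L] {s : σ → L}
    (hs : AlgebraicIndependent ℚ s) {p : MvPolynomial σ ℚ} (t : σ → ℚ)
    (hp : MvPolynomial.eval t p ≠ 0) : MvPolynomial.aeval s p ≠ 0 := by
  intro h0
  have h1 := (algebraicIndependent_iff.mp hs) p h0
  rw [h1, map_zero] at hp
  exact hp rfl

theorem part3 (hV : VOF) (hG : GenC) (hE : Exi) (e : ℕ) (W M : Multiset ℕ) (S : Set (ℤ × ℤ))
    (hS : S.Finite) (hS0 : ∀ m ∈ S, 0 ≤ m.1 ∧ 0 ≤ m.2) (h : EC e W M (qd S)) :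
    Pool.Agent.TH641.UM.EmpM (W + M) S := by
  have hfin : (qd S).Finite := by
    obtain ⟨T', hT', _⟩ := toNat_image (T := hS.toFinset) fun p hp =>
      hS0 p (hS.mem_toFinset.mp hp)
    rw [hS.coe_toFinset] at hT'
    rw [← hT']
    exact T'.finite_toSet
  obtain ⟨L, _, _, s, hs⟩ := hE (Fin (e + 1) ⊕ Fin W.toList.length ⊕ Fin M.toList.length × Fin 2)
  have h1 := hG hfin h s hs
  have hs0 : ∀ z, s z ≠ 0 := by
    intro z
    have h2 := ne_zero_of_algInd hs (p := MvPolynomial.X z) (fun _ => 1) (by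
      rw [MvPolynomial.eval_X]
      exact one_ne_zero)
    rw [MvPolynomial.aeval_X] at h2
    exact h2
  have hcv : ∀ i, (cv e fun t => s (Sum.inl t)).eval (s (Sum.inr (Sum.inl i))) ≠ 0 := by
    intro i
    have h2 := ne_zero_of_algInd hs (p := ∑ t : Fin (e + 1), MvPolynomial.X (Sum.inl t) *
      MvPolynomial.X (Sum.inr (Sum.inl i)) ^ (t : ℕ)) (fun _ => 1) (by
        rw [map_sum]
        simp only [map_mul, map_pow, MvPolynomial.eval_X, one_pow, mul_one, Finset.sum_const,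
          Finset.card_univ, Fintype.card_fin, nsmul_eq_mul]
        exact_mod_cast Nat.succ_ne_zero e)
    rw [map_sum] at h2
    unfold cv
    rw [eval_finsetSum]
    intro h3
    apply h2
    rw [← h3]
    refine Finset.sum_congr rfl fun t _ => ?_
    rw [map_mul, map_pow, MvPolynomial.aeval_X, MvPolynomial.aeval_X, eval_mul, eval_C, eval_pow,
      eval_X]
  refine (Pool.Agent.TH641.UM.EmpM_iff (w := Sum.elim (fam W) (fam M)) ?_ S).2 ?_
  · rw [Pool.Agent.TH641.UM.ms_sum, ms_fam, ms_fam]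
  · refine ⟨L, inferInstance, inferInstance, _, _, ?_, ?_, fun f hf hm =>
      lau_of_inj hV ?_ ?_ hS0 h1 f hf hm⟩
    · rintro (i | j)
      · exact hs0 _
      · exact hs0 _
    · rintro (i | j)
      · exact hcv i
      · exact hs0 _
    · rintro (i | j)
      · exact hs0 _
      · exact hs0 _
    · rintro (i | j)
      · exact hcv i
      · exact hs0 _

theorem tor : S_Tor := by
  intro hV hG hE
  refine ⟨part1 hV, ?_, part3 hV hG hE, ?_⟩
  · rintro M S hS ⟨T, hT, hc, hTE⟩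
    obtain ⟨T', hT', hc'⟩ := toNat_image (T := T) fun p hp => hS p (hT hp)
    have h1 := part1 hV M (↑T : Set (ℤ × ℤ)) hTE
    have h2 : (↑T' : Set (ℕ × ℕ)) ⊆ qd S := by
      rw [hT']
      exact fun p hp => hT hp
    have h3 : T'.card = Pool.Agent.TH2.NU.condM 0 + Pool.Agent.TH2.NU.condM M := by
      rw [hc', hc, cond_fam]
      exact (zero_add _).symm
    rw [← hT'] at h1
    exact ⟨⟨T', h2, h3, h1.1⟩, fun e => ⟨T', h2, h3, h1.2 e⟩⟩
  · rintro e W M S hS ⟨T, hT, hc, hTE⟩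
    obtain ⟨T', hT', hc', hn, hm⟩ := cast_image T
    refine ⟨T', ?_, ?_, ?_⟩
    · intro p hp
      obtain ⟨e, he, rfl⟩ := hm p hp
      exact hT he
    · rw [hc', hc, cond_fam, Pool.Agent.TH2.NU.condM_add]
    · rw [← hT'] at hTE
      exact part3 hV hG hE e W M _ T'.finite_toSet hn hTE

end Pool.Agent.Q68.CH
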