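import Pool.Agent.Q68.CH.T
import Pool.Agent.Q68.CH.Rule

/-!
# Project CH (helper200): tools for points of large multiplicity on the line
-/

set_option autoImplicit false

namespace Pool.Agent.Q68.CH

open Finset Polynomial Pool.Agent.H200C

section

variable {K : Type} [Field K] {ι : Type} [Fintype ι]

/-- the product of the equations of the points -/
noncomputable def QQ (ξ : ι → K) : K[X] := ∏ i, (X - C (ξ i))

/-- what divides the row `k` -/
noncomputable def PP (a : ι → ℕ) (ξ : ι → K) (k : ℕ) : K[X] := ∏ i, (X - C (ξ i)) ^ (a i - k)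

theorem PP_mul {a : ι → ℕ} (ξ : ι → K) {k : ℕ} (h : ∀ i, k ≤ a i) :
    PP a ξ k * QQ ξ ^ k = PP a ξ 0 := by
  unfold PP QQ
  rw [← Finset.prod_pow, ← Finset.prod_mul_distrib]
  refine Finset.prod_congr rfl fun i _ => ?_
  rw [← pow_add, Nat.sub_add_cancel (h i), Nat.sub_zero]

theorem PP_monic (a : ι → ℕ) (ξ : ι → K) (k : ℕ) : (PP a ξ k).Monic :=
  monic_prod_of_monic _ _ fun i _ => (monic_X_sub_C (ξ i)).pow _

theorem PP_ne (a : ι → ℕ) (ξ : ι → K) (k : ℕ) : PP a ξ k ≠ 0 := (PP_monic a ξ k).ne_zero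

theorem natDegree_PP (a : ι → ℕ) (ξ : ι → K) (k : ℕ) :
    (PP a ξ k).natDegree = ∑ i, (a i - k) := by
  unfold PP
  rw [natDegree_prod_of_monic _ _ fun i _ => (monic_X_sub_C (ξ i)).pow _]
  refine Finset.sum_congr rfl fun i _ => ?_
  rw [natDegree_pow, natDegree_X_sub_C, mul_one]

theorem PP_dvd {a : ι → ℕ} {ξ : ι → K} (hξ : Function.Injective ξ) {k : ℕ} {f : K[X]}
    (h : ∀ i, (X - C (ξ i)) ^ (a i - k) ∣ f) : PP a ξ k ∣ f := by
  unfold PP
  refine Finset.prod_dvd_of_coprime ?_ fun i _ => h i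
  intro i _ j _ hij
  exact ((pairwise_coprime_X_sub_C hξ) hij).pow

theorem eval_PP_ne {a : ι → ℕ} {ξ : ι → K} {k : ℕ} {t : K} (h : ∀ i, t ≠ ξ i) :
    (PP a ξ k).eval t ≠ 0 := by
  unfold PP
  rw [eval_prod]
  refine Finset.prod_ne_zero_iff.mpr fun i _ => ?_
  rw [eval_pow, eval_sub, eval_X, eval_C]
  exact pow_ne_zero _ (sub_ne_zero.mpr (h i))

theorem dvd_of_PP_mul {a : ι → ℕ} {ξ : ι → K} {k n : ℕ} {t : K} (h : ∀ i, t ≠ ξ i) {g : K[X]}
    (hg : (X - C t) ^ n ∣ PP a ξ k * g) : (X - C t) ^ n ∣ g := by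
  refine IsCoprime.dvd_of_dvd_mul_left ?_ hg
  apply IsCoprime.pow_left
  unfold PP
  refine IsCoprime.prod_right fun i _ => IsCoprime.pow_right ?_
  refine ⟨C (ξ i - t)⁻¹, -C (ξ i - t)⁻¹, ?_⟩
  have h1 : ξ i - t ≠ 0 := sub_ne_zero.mpr (h i).symm
  have h2 : C (ξ i - t)⁻¹ * (X - C t) + -C (ξ i - t)⁻¹ * (X - C (ξ i)) =
      C ((ξ i - t)⁻¹) * (C (ξ i) - C t) := by ring
  rw [h2, ← C_sub, ← C_mul, inv_mul_cancel₀ h1, C_1]

theorem coeff_comp_CX (Q : K[X]) (f : K[X][X]) (k : ℕ) :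
    (f.comp (C Q * X)).coeff k = f.coeff k * Q ^ k := comp_C_mul_X_coeff

/-- **the reduction** -/
theorem core (hV : VOF) {ιV κ : Type} {a : ι → ℕ} {v : ιV → ℕ} {m : κ → ℕ} {ξ : ι → K}
    {η : ιV → K} {x u : κ → K} {H : ℕ} (hη : ∀ j i, η j ≠ ξ i) (hx : ∀ j i, x j ≠ ξ i)
    (ha : ∀ i, H ≤ a i) {f g : K[X][X]} (hfg : ∀ k < H, f.coeff k = PP a ξ k * g.coeff k)
    (hf0 : ∀ k, H ≤ k → f.coeff k = 0) (hg0 : ∀ k, H ≤ k → g.coeff k = 0)
    (h1 : ∀ j, VO (v j) (η j) 0 f) (h2 : ∀ j, VO (m j) (x j) (u j * (QQ ξ).eval (x j)) f) :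
    (∀ j, VO (v j) (η j) 0 g) ∧ ∀ j, VO (m j) (x j) (u j) g := by
  constructor
  · intro j
    rw [hV.rows0]
    intro k hk
    rcases lt_or_ge k H with hkH | hkH
    · have h3 := ((hV.rows0 _ _ _).mp (h1 j)) k hk
      rw [hfg k hkH] at h3
      exact dvd_of_PP_mul (hη j) h3
    · rw [hg0 k hkH]
      exact dvd_zero _
  · intro j
    have h3 := hV.substY (QQ ξ) (h2 j)
    have h4 : f.comp (C (QQ ξ) * X) = C (PP a ξ 0) * g := by
      refine Polynomial.ext fun k => ?_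
      rw [coeff_comp_CX, coeff_C_mul]
      rcases lt_or_ge k H with hkH | hkH
      · rw [hfg k hkH, ← PP_mul ξ (k := k) fun i => hkH.le.trans (ha i)]
        ring
      · rw [hf0 k hkH, hg0 k hkH, zero_mul, mul_zero]
    rw [h4] at h3
    exact hV.mulC _ (eval_PP_ne (hx j)) h3

end

theorem sum_fam {α : Type} [AddCommMonoid α] (A : Multiset ℕ) (f : ℕ → α) :
    (A.map f).sum = ∑ i, f (fam A i) := by
  conv_lhs => rw [← Multiset.coe_toList A]
  rw [Multiset.map_coe, Multiset.sum_coe, ← Fin.sum_univ_fun_getElem]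
  rfl

theorem fam_mem (A : Multiset ℕ) (i : Fin A.toList.length) : fam A i ∈ A := by
  rw [← Multiset.mem_toList]
  exact List.get_mem _ _

theorem sum_id (A : Multiset ℕ) : A.sum = ∑ i, fam A i := by
  have h := sum_fam A (fun a => a)
  rw [Multiset.map_id'] at h
  exact h

theorem card_fam (A : Multiset ℕ) : A.card = Fintype.card (Fin A.toList.length) := by
  rw [Fintype.card_fin, Multiset.length_toList]

theorem xchJ (h : Xch) {K : Type} [Field K] {ι J : Type} [Finite ι] [Fintype J] (m : ι → ℕ)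
    (x y : ι → K) (S : Set (ℕ × ℕ)) (g : J → K[X][X]) (hg : ∀ j, In S (g j))
    (hc : ∀ c : J → K, (∀ i, VO (m i) (x i) (y i) (∑ j, C (C (c j)) * g j)) → c = 0) :
    ∃ T : Finset (ℕ × ℕ), (↑T : Set (ℕ × ℕ)) ⊆ S ∧ T.card = Fintype.card J ∧
      Inj K m x y ↑T := by
  let e := Fintype.equivFin J
  refine h m x y S (fun i => g (e.symm i)) (fun i => hg _) fun c hcc => ?_
  have h1 : (fun j => c (e j)) = 0 := by
    apply hc
    intro i
    have h2 := hcc i
    have h3 : ∑ j, C (C (c j)) * g (e.symm j) = ∑ j, C (C (c (e j))) * g j := by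
      refine (Fintype.sum_equiv e _ _ fun j => ?_).symm
      rw [Equiv.symm_apply_apply]
    rw [h3] at h2
    exact h2
  funext i
  have h2 := congrFun h1 (e.symm i)
  simpa using h2

theorem choose_step (a H : ℕ) (h : H ≤ a) :
    ∑ k ∈ range H, (a - k) + (a - H + 1).choose 2 = (a + 1).choose 2 := by
  induction H with
  | zero => rw [Finset.range_zero, Finset.sum_empty, Nat.sub_zero, zero_add]
  | succ H ih =>
    rw [Finset.sum_range_succ]
    have h1 := ih (by omega)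
    obtain ⟨b, hb⟩ : ∃ b, a - H = b + 1 := ⟨a - H - 1, by omega⟩
    have h2 : a - (H + 1) = b := by omega
    rw [hb] at h1
    rw [h2, hb, ← h1]
    have h3 : (b + 1 + 1).choose 2 = (b + 1).choose 1 + (b + 1).choose 2 :=
      Nat.choose_succ_succ (b + 1) 1
    rw [Nat.choose_one_right] at h3
    omega

theorem condM_large {A : Multiset ℕ} {H : ℕ} (hA : ∀ a ∈ A, H ≤ a) :
    ∑ k ∈ range H, ∑ i, (fam A i - k) + Pool.Agent.TH2.NU.condM (A.map fun w => w - H) =
      Pool.Agent.TH2.NU.condM A := by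
  unfold Pool.Agent.TH2.NU.condM
  rw [Multiset.map_map, sum_fam, sum_fam, Finset.sum_comm, ← Finset.sum_add_distrib]
  refine Finset.sum_congr rfl fun i _ => ?_
  exact choose_step _ _ (hA _ (fam_mem A i))

theorem condM_small {V : Multiset ℕ} {H : ℕ} (hV : ∀ a ∈ V, a ≤ H) :
    Pool.Agent.TH2.NU.condM (V.map fun w => w - H) = 0 := by
  unfold Pool.Agent.TH2.NU.condM
  rw [Multiset.map_map, sum_fam]
  refine Finset.sum_eq_zero fun i _ => ?_
  show (fam V i - H + 1).choose 2 = 0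
  rw [Nat.sub_eq_zero_of_le (hV _ (fam_mem V i))]
  rfl

end Pool.Agent.Q68.CH
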