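import Pool.Agent.H200C.Stm

/-!
# Project CH (helper200): tools
-/

set_option autoImplicit false

namespace Pool.Agent.Q68.CH

open Finset Polynomial Pool.Agent.H200C

section

variable {R : Type} [CommRing R]

/-- a monomial -/
noncomputable def mon (a b : ℕ) (c : R) : R[X][X] := C (C c * X ^ a) * X ^ b

theorem coeff_mon (a b : ℕ) (c : R) (a' b' : ℕ) :
    ((mon a b c).coeff b').coeff a' = if (a', b') = (a, b) then c else 0 := by
  unfold mon
  rw [coeff_C_mul, coeff_X_pow]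
  by_cases hb : b' = b
  · rw [if_pos hb, mul_one, coeff_C_mul, coeff_X_pow]
    by_cases ha : a' = a
    · rw [if_pos ha, mul_one, if_pos (by rw [ha, hb])]
    · rw [if_neg ha, mul_zero, if_neg]
      intro h
      exact ha (congrArg Prod.fst h)
  · rw [if_neg hb, mul_zero, coeff_zero, if_neg]
    intro h
    exact hb (congrArg Prod.snd h)

/-- the polynomial with given coefficients -/
noncomputable def pol (S : Finset (ℕ × ℕ)) (c : ℕ × ℕ → R) : R[X][X] :=
  ∑ e ∈ S, mon e.1 e.2 (c e)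

theorem coeff_sum2 {J : Type} (s : Finset J) (f : J → R[X][X]) (a b : ℕ) :
    ((∑ j ∈ s, f j).coeff b).coeff a = ∑ j ∈ s, ((f j).coeff b).coeff a := by
  rw [finsetSum_coeff, finsetSum_coeff]

theorem coeff_pol (S : Finset (ℕ × ℕ)) (c : ℕ × ℕ → R) (a b : ℕ) :
    ((pol S c).coeff b).coeff a = if (a, b) ∈ S then c (a, b) else 0 := by
  unfold pol
  rw [coeff_sum2]
  have h1 : ∀ e : ℕ × ℕ, ((mon e.1 e.2 (c e)).coeff b).coeff a = if (a, b) = e then c e else 0 := by
    intro e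
    rw [coeff_mon]
  rw [Finset.sum_congr rfl fun e _ => h1 e, Finset.sum_ite_eq S (a, b) c]

theorem ext2 {f g : R[X][X]} (h : ∀ a b, (f.coeff b).coeff a = (g.coeff b).coeff a) : f = g :=
  Polynomial.ext fun b => Polynomial.ext fun a => h a b

theorem In_pol (S : Finset (ℕ × ℕ)) (c : ℕ × ℕ → R) : In (↑S : Set (ℕ × ℕ)) (pol S c) := by
  intro a b h
  rw [coeff_pol] at h
  by_contra hn
  exact h (if_neg hn)

theorem eq_pol {S : Finset (ℕ × ℕ)} {f : R[X][X]} (h : In (↑S : Set (ℕ × ℕ)) f) :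
    f = pol S fun e => (f.coeff e.2).coeff e.1 := by
  refine ext2 fun a b => ?_
  rw [coeff_pol]
  split_ifs with hab
  · rfl
  · by_contra hn
    exact hab (h a b hn)

theorem tc_mon (hV : VOF) (a b : ℕ) (c : R) (x y : R) (i k : ℕ) :
    tc (mon a b c) x y i k =
      c * ((a.choose i : ℕ) : R) * ((b.choose k : ℕ) : R) * x ^ (a - i) * y ^ (b - k) := by
  rw [hV.expl]
  unfold mon
  rw [C_mul_X_pow_eq_monomial, sum_monomial_index, C_mul_X_pow_eq_monomial, sum_monomial_index]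
  · simp
  · rw [sum_zero_index]

theorem tc_zero (hV : VOF) (x y : R) (i k : ℕ) : tc (0 : R[X][X]) x y i k = 0 := by
  rw [hV.expl, sum_zero_index]

theorem tc_sum (hV : VOF) {J : Type} (s : Finset J) (f : J → R[X][X]) (x y : R) (i k : ℕ) :
    tc (∑ j ∈ s, f j) x y i k = ∑ j ∈ s, tc (f j) x y i k := by
  classical
  induction s using Finset.induction_on with
  | empty => rw [Finset.sum_empty, Finset.sum_empty, tc_zero hV]
  | insert j s hj ih => rw [Finset.sum_insert hj, Finset.sum_insert hj, hV.add, ih]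

theorem tc_pol (hV : VOF) (S : Finset (ℕ × ℕ)) (c : ℕ × ℕ → R) (x y : R) (i k : ℕ) :
    tc (pol S c) x y i k = ∑ e ∈ S, ((e.1.choose i : ℕ) : R) * ((e.2.choose k : ℕ) : R) *
      (x ^ (e.1 - i) * y ^ (e.2 - k)) * c e := by
  unfold pol
  rw [tc_sum hV]
  refine Finset.sum_congr rfl fun e _ => ?_
  rw [tc_mon hV]
  ring

/-- the conditions -/
abbrev Rw {ι : Type} (m : ι → ℕ) := {r : ι × ℕ × ℕ // r.2.1 + r.2.2 < m r.1}

/-- the entries -/
noncomputable def ent {ι : Type} {m : ι → ℕ} (x y : ι → R) (r : Rw m) (e : ℕ × ℕ) : R :=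
  ((e.1.choose r.1.2.1 : ℕ) : R) * ((e.2.choose r.1.2.2 : ℕ) : R) *
    (x r.1.1 ^ (e.1 - r.1.2.1) * y r.1.1 ^ (e.2 - r.1.2.2))

theorem inj_iff (hV : VOF) {ι : Type} (m : ι → ℕ) (x y : ι → R) (S : Finset (ℕ × ℕ)) :
    Inj R m x y (↑S : Set (ℕ × ℕ)) ↔
      ∀ c : S → R, (∀ r : Rw m, ∑ e : S, ent x y r e * c e = 0) → c = 0 := by
  constructor
  · intro h c hc
    let g : ℕ × ℕ → R := fun e => if he : e ∈ S then c ⟨e, he⟩ else 0
    have hg : ∀ e : S, g e = c e := fun e => dif_pos e.2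
    have h1 : pol S g = 0 := by
      apply h _ (In_pol S g)
      intro i a b hab
      rw [tc_pol hV]
      have h2 := hc ⟨(i, a, b), hab⟩
      rw [← Finset.sum_coe_sort S]
      refine Eq.trans ?_ h2
      refine Finset.sum_congr rfl fun e _ => ?_
      rw [hg]
      rfl
    funext e
    have h3 := coeff_pol S g e.1.1 e.1.2
    rw [h1, coeff_zero, coeff_zero, if_pos e.2] at h3
    rw [← hg e]
    exact h3.symm
  · intro h f hf hm
    have h1 : (fun e : S => (f.coeff e.1.2).coeff e.1.1) = 0 := by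
      apply h
      intro r
      have h2 := hm r.1.1 r.1.2.1 r.1.2.2 r.2
      rw [eq_pol hf, tc_pol hV, ← Finset.sum_coe_sort S] at h2
      exact h2
    rw [eq_pol hf]
    unfold pol
    refine Finset.sum_eq_zero fun e he => ?_
    have h3 := congrFun h1 ⟨e, he⟩
    have h4 : (f.coeff e.2).coeff e.1 = 0 := h3
    show mon e.1 e.2 ((f.coeff e.2).coeff e.1) = 0
    rw [h4]
    unfold mon
    rw [C_0, zero_mul, C_0, zero_mul]

end

/-- weaker conditions and fewer exponents -/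
theorem inj_mono_set {R : Type} [CommRing R] {ι : Type} {m : ι → ℕ} {x y : ι → R}
    {S S' : Set (ℕ × ℕ)} (h : Inj R m x y S) (hS : S' ⊆ S) : Inj R m x y S' :=
  fun f hf hm => h f (fun a b hab => hS (hf a b hab)) hm

end Pool.Agent.Q68.CH
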